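import Pool.Agent.W2helper40.DZ.Main

set_option autoImplicit false

/-!
# Many denominators of fractions with small partial quotients, in every residue class

Let `z ≥ 2` and let `δ` be the Hausdorff dimension of the set `E z` of the real numbers
`[0, a_1, a_2, …]` with all `a_i ≤ z`. Then the set `𝔇_z` of the denominators of the fractions with
partial quotients at most `z` contains at least `N ^ (δ - ε)` numbers `d ≤ N` in every residue class
modulo every `m`, for all large `N`. For `z = 2` it is known that `δ = 0.5312…`. (For the total number,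
without the residue classes, counting fractions gives `N ^ (2 δ - 1)`, and Bourgain and Kontorovich
have the exponent `δ + (2 δ - 1) (1 - δ) / (5 - δ) - ε`, by the circle method.)

Proof. For words `u`, `w` with the letters `1, …, z` the denominator of `[0, u, w]` is
`q(u) q(w) + q'(u) p(w)`, where `p(w) / q(w) = [0, w]` and `q'(u)` is coprime to `q(u)`. For a fixed
`u` with `q(u) > (z + 1) Y` different fractions `[0, w]`, `Y < q(w) ≤ (z + 1) Y`, give different
denominators. The intervals of radius `Y ^ (-2)` around these fractions cover `E z`; so their number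
is at least `Y ^ (2 s)` for all large `Y` if `s < δ`. Here `Y` is of the size `√N`. The words act on
the pairs of residues modulo `m` as a finite group, which contains the elementary matrices; so for
every class of `(p(w), q(w))` there is such a `u`, of the right size, with denominators in the class
of `r`.
-/

namespace Pool.Agent.Results.MP_d0a18a_nt.DimensionExponent

open Filter Topology

/-- The value of the finite continued fraction `[0, a_1, …, a_n]`, `w` the list of the `a_i`. -/
def cf (w : List ℕ) : ℚ := w.foldr (fun a x => 1 / ((a : ℚ) + x)) 0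

/-- The set `𝔇_z`, `z ≥ 1`: the `d ≥ 1` such that for some `b` coprime to `d` we have
`b / d = [a₀, a_1, …, a_k, 1]` with `1 ≤ a_i ≤ z` for `i = 1, …, k`. -/
def D (z : ℕ) : Set ℕ :=
  {d | 1 ≤ d ∧ ∃ b : ℤ, IsCoprime b (d : ℤ) ∧ ∃ (a₀ : ℤ) (w : List ℕ),
    (∀ a ∈ w, 1 ≤ a ∧ a ≤ z) ∧ (b : ℚ) / d = a₀ + cf (w ++ [1])}

/-- The Gauss map: the fractional part of `1 / x`. -/
noncomputable def gauss (x : ℝ) : ℝ := Int.fract x⁻¹

/-- The irrational numbers `x = [0, a_1, a_2, …]` of the interval `(0, 1)` with all `a_i ≤ z`; here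
`a_(n+1)` is the integer part of `1 / gauss^[n] x`. -/
def E (z : ℕ) : Set ℝ :=
  {x | Irrational x ∧ 0 < x ∧ x < 1 ∧ ∀ n : ℕ, ⌊(gauss^[n] x)⁻¹⌋ ≤ (z : ℤ)}

/-- For `z ≥ 2`, every residue class `r` modulo `m ≥ 1` and every `s > 0` smaller than the Hausdorff
dimension of `E z`, the number of the `d ≤ N` in `𝔇_z` with `d ≡ r (mod m)` is at least `N ^ s` for
all large `N`. -/
theorem result (z m r : ℕ) (hz : 2 ≤ z) (hm : 1 ≤ m) (s : ℝ) (hs : 0 < s)
    (hs' : ENNReal.ofReal s < dimH (E z)) :
    ∀ᶠ N : ℕ in atTop, (N : ℝ) ^ s ≤ (({d | d ∈ D z ∧ d ≤ N ∧ d ≡ r [MOD m]}.ncard : ℕ) : ℝ) :=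
  Pool.Agent.W2helper40.DZ.mainRes hz hm r hs hs'

end Pool.Agent.Results.MP_d0a18a_nt.DimensionExponent
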